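import Mathlib

set_option autoImplicit false

namespace Pool.Agent.H4489

/-- norm form of `p + q θ + r / θ` where `θ ^ 3 = a θ ^ 2 - b θ + 1` -/
def Nf {R : Type*} [CommRing R] (a b p q r : R) : R :=
  p * ((p + a * q) * (p + b * r) - q * r) - q * ((r - b * q) * (p + b * r) - q * (q - a * r))
    + r * ((r - b * q) * r - (p + a * q) * (q - a * r))

lemma Nf_T {R : Type*} [CommRing R] (a b p q r : R) :
    Nf a b (r - b * q) (p + a * q) q = Nf a b p q r := by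
  unfold Nf; ring

lemma Nf_T' {R : Type*} [CommRing R] (a b p q r : R) :
    Nf a b (q - a * r) r (p + b * r) = Nf a b p q r := by
  unfold Nf; ring

lemma Nf_cast (a b p q r : ℤ) : ((Nf a b p q r : ℤ) : ℝ) = Nf (a : ℝ) b p q r := by
  unfold Nf; push_cast; ring

lemma Nf_factor (ρ s τ p q r : ℝ) (hρ : 0 < ρ) (h : ρ * (s ^ 2 + τ) = 1) :
    Nf (ρ + 2 * s) (2 * ρ * s + s ^ 2 + τ) p q r =
      (p + q * ρ + r / ρ) * ((p + s * (q + r * ρ)) ^ 2 + τ * (q - r * ρ) ^ 2) := by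
  have hτ : τ = 1 / ρ - s ^ 2 := by
    field_simp; linarith
  subst hτ
  unfold Nf; field_simp; ring

lemma abs_lt_one_int (r : ℤ) (h : |(r : ℝ)| < 1) : r = 0 := by
  have : |r| < 1 := by exact_mod_cast h
  exact Int.abs_lt_one_iff.mp this

/-- first step: the coefficient of `1 / θ` vanishes -/
lemma step_r (K ρ s X u W r : ℝ) (hK : 1 ≤ K) (hρ : 0 < ρ) (hε : ρ * (10000 * K ^ 2) ≤ 1)
    (hs : (ρ * s) ^ 2 ≤ ρ) (hX : |X| ≤ 2 * K) (hu : |u| ≤ 6 * K) (hW : |W| ≤ 1 / 4)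
    (hid : W = r * (1 - 2 * ρ * (ρ * s) + ρ ^ 3) + ρ * X - (ρ * s) * u + ρ ^ 2 * u) :
    |r| < 1 := by
  have hK0 : 0 < K := by linarith
  have hρK : ρ * K ≤ 1 / 10000 := by nlinarith [mul_pos hρ hK0]
  have hρ1 : ρ ≤ 1 / 10000 := by nlinarith
  have hσ : |ρ * s| * K ≤ 1 / 100 := by
    have h1 : (|ρ * s| * K) ^ 2 ≤ (1 / 100) ^ 2 := by
      rw [mul_pow, sq_abs]; nlinarith [mul_le_mul_of_nonneg_right hs (sq_nonneg K)]
    exact abs_le_of_sq_le_sq' h1 (by norm_num) |>.2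
  set σ := ρ * s with hσdef
  have hσ0 : 0 ≤ |σ| := abs_nonneg _
  have hσ1 : |σ| ≤ 1 / 100 := by nlinarith
  have e1 : |ρ * X| ≤ 1 / 1000 := by
    rw [abs_mul, abs_of_pos hρ]; nlinarith
  have e2 : |σ * u| ≤ 6 / 100 := by
    rw [abs_mul]; nlinarith
  have e3 : |ρ ^ 2 * u| ≤ 1 / 1000 := by
    rw [abs_mul, abs_of_pos (by positivity : 0 < ρ ^ 2)]
    have : ρ * |u| ≤ 6 / 10000 := by nlinarith
    nlinarith [abs_nonneg u]
  have e4 : 1 / 2 ≤ 1 - 2 * ρ * σ + ρ ^ 3 := by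
    have := le_abs_self σ
    have h3 : 0 < ρ ^ 3 := by positivity
    nlinarith
  have e5 : |r * (1 - 2 * ρ * σ + ρ ^ 3)| ≤ 1 / 3 := by
    have : r * (1 - 2 * ρ * σ + ρ ^ 3) = W - ρ * X + σ * u - ρ ^ 2 * u := by rw [hid]; ring
    rw [this]
    have a1 := abs_le.mp hW
    have a2 := abs_le.mp e1
    have a3 := abs_le.mp e2
    have a4 := abs_le.mp e3
    rw [abs_le]; constructor <;> linarith [a1.1, a1.2, a2.1, a2.2, a3.1, a3.2, a4.1, a4.2]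
  rw [abs_mul, abs_of_pos (by linarith : 0 < 1 - 2 * ρ * σ + ρ ^ 3)] at e5
  nlinarith [abs_nonneg r]

/-- normalised elements of small norm are rational integers -/
lemma core (K ρ s τ : ℝ) (p q r : ℤ) (hK : 1 ≤ K) (hρ : 0 < ρ) (hε : ρ * (10000 * K ^ 2) ≤ 1)
    (h : ρ * (s ^ 2 + τ) = 1) (hτ : 1 / 8 ≤ τ)
    (hlo : 1 / 4 ≤ |p + q * ρ + r / ρ|) (hhi : |ρ * (p + q * ρ + r / ρ)| ≤ 1 / 4)
    (hN : |(p + q * ρ + r / ρ) * ((p + s * (q + r * ρ)) ^ 2 + τ * (q - r * ρ) ^ 2)| < K) :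
    q = 0 ∧ r = 0 := by
  set R : ℝ := p + q * ρ + r / ρ with hR
  set X : ℝ := p + s * (q + r * ρ) with hX
  set u : ℝ := q - r * ρ with hu
  have hK0 : 0 < K := by linarith
  have hQ0 : 0 ≤ X ^ 2 + τ * u ^ 2 := by positivity
  rw [abs_mul, abs_of_nonneg hQ0] at hN
  have hQ : X ^ 2 + τ * u ^ 2 < 4 * K := by nlinarith
  have hτu : 0 ≤ τ * u ^ 2 := by positivity
  have hXb : |X| ≤ 2 * K := by
    apply abs_le_of_sq_le_sq' _ (by positivity) |> abs_le.mpr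
    nlinarith
  have hub : |u| ≤ 6 * K := by
    apply abs_le_of_sq_le_sq' _ (by positivity) |> abs_le.mpr
    nlinarith [sq_nonneg X, sq_nonneg u]
  have hs : (ρ * s) ^ 2 ≤ ρ := by
    have : ρ ^ 2 * (s ^ 2 + τ) = ρ := by
      calc ρ ^ 2 * (s ^ 2 + τ) = ρ * (ρ * (s ^ 2 + τ)) := by ring
        _ = ρ := by rw [h, mul_one]
    nlinarith [sq_nonneg ρ]
  have hr : r = 0 := by
    apply abs_lt_one_int
    apply step_r K ρ s X u (ρ * R) r hK hρ hε hs hXb hub hhi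
    rw [hR, hX, hu]; field_simp; ring
  refine ⟨?_, hr⟩
  by_contra hq
  have hq1 : (1 : ℝ) ≤ (q : ℝ) ^ 2 := by
    have : (1 : ℤ) ≤ q ^ 2 := by
      have := sq_pos_of_ne_zero hq
      omega
    exact_mod_cast this
  have hu' : u = q := by rw [hu, hr]; simp
  have hR' : R = p + q * ρ := by rw [hR, hr]; simp
  have hX' : X = p + s * q := by rw [hX, hr]; simp
  rw [hu'] at hN hQ
  have hτq : τ ≤ τ * (q : ℝ) ^ 2 := by nlinarith
  have hRb : |R| ≤ 8 * K := by nlinarith [abs_nonneg R, sq_nonneg X]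
  have hτb : τ ≤ 4 * K := by nlinarith [sq_nonneg X]
  have hd : ((s - ρ) * q) ^ 2 ≤ (10 * K) ^ 2 := by
    have e : (s - ρ) * q = X - R := by rw [hX', hR']; ring
    rw [e]
    have a1 := abs_le.mp hXb
    have a2 := abs_le.mp hRb
    apply sq_le_sq' <;> linarith [a1.1, a1.2, a2.1, a2.2]
  have hd2 : (s - ρ) ^ 2 ≤ (10 * K) ^ 2 := by
    rw [mul_pow] at hd; nlinarith [sq_nonneg (s - ρ)]
  have hd3 := abs_le_of_sq_le_sq' hd2 (by positivity)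
  have hρ1 : ρ ≤ 1 := by nlinarith
  have hs2 : s ^ 2 ≤ (11 * K) ^ 2 := by
    apply sq_le_sq' <;> linarith [hd3.1, hd3.2]
  have : s ^ 2 + τ ≤ 125 * K ^ 2 := by nlinarith
  nlinarith

/-- descent along the powers of `θ` -/
lemma descent (a b : ℤ) (K ρ s τ : ℝ) (hK : 1 ≤ K) (hρ : 0 < ρ) (hε : ρ * (10000 * K ^ 2) ≤ 1)
    (h : ρ * (s ^ 2 + τ) = 1) (hτ : 1 / 8 ≤ τ) (ha : (a : ℝ) = ρ + 2 * s)
    (hb : (b : ℝ) = 2 * ρ * s + s ^ 2 + τ) (Λ : ℤ → ℤ → ℤ → Prop)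
    (hT : ∀ p q r, Λ p q r → Λ (r - b * q) (p + a * q) q)
    (hT' : ∀ p q r, Λ p q r → Λ (q - a * r) r (p + b * r))
    (p q r : ℤ) (hΛ : Λ p q r) (h0 : Nf a b p q r ≠ 0) (hN : |((Nf a b p q r : ℤ) : ℝ)| < K) :
    ∃ c : ℤ, Λ c 0 0 ∧ c ^ 3 = Nf a b p q r := by
  have hτ' : τ = 1 / ρ - s ^ 2 := by
    field_simp; linarith
  have hall : ∀ k : ℤ, ∃ p' q' r' : ℤ, Λ p' q' r' ∧ Nf a b p' q' r' = Nf a b p q r ∧
      (p' + q' * ρ + r' / ρ : ℝ) = (ρ⁻¹) ^ k * (p + q * ρ + r / ρ) := by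
    intro k
    induction k using Int.induction_on with
    | zero => exact ⟨p, q, r, hΛ, rfl, by simp⟩
    | succ i ih =>
      obtain ⟨p', q', r', h1, h2, h3⟩ := ih
      refine ⟨_, _, _, hT' _ _ _ h1, by rw [Nf_T', h2], ?_⟩
      rw [zpow_add_one₀ (by positivity), mul_right_comm, ← h3]
      push_cast
      rw [ha, hb, hτ']; field_simp; ring
    | pred i ih =>
      obtain ⟨p', q', r', h1, h2, h3⟩ := ih
      refine ⟨_, _, _, hT _ _ _ h1, by rw [Nf_T, h2], ?_⟩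
      rw [zpow_sub_one₀ (by positivity), mul_right_comm, ← h3]
      push_cast
      rw [ha, hb, hτ']; field_simp; ring
  have hfac : ∀ p q r : ℤ, ((Nf a b p q r : ℤ) : ℝ) =
      (p + q * ρ + r / ρ) * ((p + s * (q + r * ρ)) ^ 2 + τ * (q - r * ρ) ^ 2) := by
    intro p q r
    rw [Nf_cast, ha, hb, Nf_factor ρ s τ _ _ _ hρ h]
  have hR0 : (p + q * ρ + r / ρ : ℝ) ≠ 0 := by
    intro h1
    apply h0
    have := hfac p q r
    rw [h1, zero_mul] at this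
    exact_mod_cast this
  have hρ1 : ρ < 1 := by nlinarith
  have hinv : 1 < ρ⁻¹ := one_lt_inv_iff₀.mpr ⟨hρ, hρ1⟩
  have hpos : 0 < 4 * |(p + q * ρ + r / ρ : ℝ)| := by positivity
  obtain ⟨n, hn1, hn2⟩ := exists_mem_Ico_zpow hpos hinv
  obtain ⟨p', q', r', h1, h2, h3⟩ := hall (-n)
  have hy : 0 < (ρ⁻¹) ^ n := by positivity
  have habs : |(p' + q' * ρ + r' / ρ : ℝ)| = |(p + q * ρ + r / ρ : ℝ)| / (ρ⁻¹) ^ n := by
    rw [h3, abs_mul, zpow_neg, abs_of_pos (by positivity)]; field_simp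
  have hlo : 1 / 4 ≤ |(p' + q' * ρ + r' / ρ : ℝ)| := by
    rw [habs, le_div_iff₀ hy]; linarith
  have hhi : |ρ * (p' + q' * ρ + r' / ρ : ℝ)| ≤ 1 / 4 := by
    rw [abs_mul, abs_of_pos hρ, habs, ← mul_div_assoc, div_le_iff₀ hy]
    rw [zpow_add_one₀ (by positivity)] at hn2
    have := mul_lt_mul_of_pos_left hn2 hρ
    have e : ρ * (ρ⁻¹ ^ n * ρ⁻¹) = ρ⁻¹ ^ n := by field_simp
    rw [e] at this
    linarith
  obtain ⟨hq, hr⟩ := core K ρ s τ p' q' r' hK hρ hε h hτ hlo hhi (by rw [← hfac, h2]; exact hN)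
  subst hq hr
  refine ⟨p', h1, ?_⟩
  rw [← h2]; unfold Nf; ring

end Pool.Agent.H4489
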