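import Mathlib
import Pool.Agent.H.MP_44891f_nt.A

set_option autoImplicit false

namespace Pool.Agent.H4489

open Matrix

abbrev M3 := Matrix (Fin 3) (Fin 3) ℤ
abbrev V3 := Fin 3 → ℤ

def d3 (x y z : V3) : ℤ :=
  x 0 * (y 1 * z 2 - y 2 * z 1) - x 1 * (y 0 * z 2 - y 2 * z 0) + x 2 * (y 0 * z 1 - y 1 * z 0)

/-- `B` is the inverse of `A` and `A ^ 2 = a A - b + B`, at the level of vectors -/
structure Good (A B : V3 →ₗ[ℤ] V3) (a b : ℤ) : Prop where
  ab : ∀ x, A (B x) = x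
  ba : ∀ x, B (A x) = x
  sq : ∀ x, A (A x) = a • A x - b • x + B x

def G (A B : V3 →ₗ[ℤ] V3) (x : V3) : ℤ := d3 x (A x) (B x)

lemma Good.symm {A B : V3 →ₗ[ℤ] V3} {a b : ℤ} (h : Good A B a b) : Good B A b a := by
  refine ⟨h.ba, h.ab, fun x => ?_⟩
  have h1 := h.sq (B x)
  rw [h.ab x] at h1
  rw [h1]; abel

lemma G_symm (A B : V3 →ₗ[ℤ] V3) (x : V3) : G B A x = - G A B x := by
  unfold G d3; ring

lemma Good.par {A B : V3 →ₗ[ℤ] V3} {j : ℤ} (h : Good A B (2 * j) (j ^ 2)) :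
    Good (j • A - (j ^ 2) • LinearMap.id + B) (A - j • LinearMap.id) 0 (-j) := by
  have hs := h.symm.sq
  refine ⟨fun x => ?_, fun x => ?_, fun x => ?_⟩
  · simp only [LinearMap.add_apply, LinearMap.sub_apply, LinearMap.smul_apply, LinearMap.id_apply,
      map_sub, map_smul, h.sq, h.ba]
    module
  · simp only [LinearMap.add_apply, LinearMap.sub_apply, LinearMap.smul_apply, LinearMap.id_apply,
      map_sub, map_add, map_smul, h.sq, h.ab]
    module
  · simp only [LinearMap.add_apply, LinearMap.sub_apply, LinearMap.smul_apply, LinearMap.id_apply,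
      map_sub, map_add, map_smul, h.sq, h.ab, h.ba, hs]
    module

lemma G_par (A B : V3 →ₗ[ℤ] V3) (j : ℤ) (x : V3) :
    G (j • A - (j ^ 2) • LinearMap.id + B) (A - j • LinearMap.id) x = - G A B x := by
  unfold G d3
  simp only [LinearMap.add_apply, LinearMap.sub_apply, LinearMap.smul_apply, LinearMap.id_apply,
    Pi.add_apply, Pi.sub_apply, Pi.smul_apply, smul_eq_mul]
  ring

lemma cramer (e f g x : V3) :
    d3 x f g • e + d3 e x g • f + d3 e f x • g = d3 e f g • x := by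
  ext i
  fin_cases i <;> simp [d3] <;> ring

lemma G_smul (A B : V3 →ₗ[ℤ] V3) (c : ℤ) (x : V3) : G A B (c • x) = c ^ 3 * G A B x := by
  unfold G d3
  simp only [map_smul, Pi.smul_apply, smul_eq_mul]
  ring

lemma G_comb {A B : V3 →ₗ[ℤ] V3} {a b : ℤ} (h : Good A B a b) (e : V3) (p q r : ℤ) :
    G A B (p • e + q • A e + r • B e) = Nf a b p q r * G A B e := by
  have hs := h.symm.sq
  unfold G d3 Nf
  simp only [map_add, map_smul, h.sq, h.ab, h.ba, hs, Pi.add_apply, Pi.sub_apply, Pi.smul_apply,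
    smul_eq_mul]
  ring

lemma main {A B : V3 →ₗ[ℤ] V3} {a b : ℤ} (h : Good A B a b) (e : V3) (he : e 0 = 1)
    (hD : G A B e ≠ 0) (ρ s τ : ℝ) (hρ : 0 < ρ)
    (hε : ρ * (10000 * (((|G A B e| : ℤ) : ℝ) ^ 3) ^ 2) ≤ 1)
    (h1 : ρ * (s ^ 2 + τ) = 1) (hτ : 1 / 8 ≤ τ) (ha : (a : ℝ) = ρ + 2 * s)
    (hb : (b : ℝ) = 2 * ρ * s + s ^ 2 + τ) (x : V3) (hx : G A B x ≠ 0) :
    |G A B e| ≤ |G A B x| := by
  by_contra hlt
  push Not at hlt
  set D := G A B e with hDdef
  have hs := h.symm.sq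
  have hD1 : 1 ≤ |D| := Int.one_le_abs hD
  have hc := cramer e (A e) (B e) x
  set p := d3 x (A e) (B e)
  set q := d3 e x (B e)
  set r := d3 e (A e) x
  have hc' : p • e + q • A e + r • B e = D • x := hc
  have hN : Nf a b p q r = D ^ 2 * G A B x := by
    have e1 := G_comb h e p q r
    rw [hc', G_smul] at e1
    apply mul_right_cancel₀ hD
    rw [← e1]; ring
  have hNlt : |Nf a b p q r| < |D| ^ 3 := by
    rw [hN, abs_mul, abs_pow]
    have : 0 < |D| ^ 2 := by positivity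
    calc |D| ^ 2 * |G A B x| < |D| ^ 2 * |D| := mul_lt_mul_of_pos_left hlt this
      _ = |D| ^ 3 := by ring
  obtain ⟨c, ⟨y, hy⟩, hc3⟩ := descent a b (((|D| : ℤ) : ℝ) ^ 3) ρ s τ
    (one_le_pow₀ (by exact_mod_cast hD1)) hρ hε h1 hτ ha hb
    (fun p q r => ∃ y : V3, p • e + q • A e + r • B e = D • y)
    (by
      rintro p q r ⟨y, hy⟩
      refine ⟨A y, ?_⟩
      have := congrArg A hy
      simp only [map_add, map_smul, h.sq, h.ab] at this
      rw [← this]; module)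
    (by
      rintro p q r ⟨y, hy⟩
      refine ⟨B y, ?_⟩
      have := congrArg B hy
      simp only [map_add, map_smul, hs, h.ba] at this
      rw [← this]; module)
    p q r ⟨x, hc'⟩ (by rw [hN]; positivity) (by exact_mod_cast hNlt)
  have hcy : c = D * y 0 := by
    have := congrFun hy 0
    simpa [he] using this
  have hy0 : y 0 ≠ 0 := by
    intro h0
    rw [h0, mul_zero] at hcy
    rw [hcy, hN] at hc3
    have : D ^ 2 * G A B x ≠ 0 := by positivity
    exact this (by rw [← hc3]; ring)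
  have hy1 : 1 ≤ |y 0| := Int.one_le_abs hy0
  rw [← hc3, hcy, abs_pow, abs_mul, mul_pow] at hNlt
  have : 1 ≤ |y 0| ^ 3 := one_le_pow₀ hy1
  have h3 : 0 < |D| ^ 3 := by positivity
  nlinarith

/-- the case of a small real root, including the parabola `4 b = a ^ 2` -/
lemma small {A B : V3 →ₗ[ℤ] V3} {a b : ℤ} (h : Good A B a b) (e : V3) (he : e 0 = 1)
    (hD : G A B e ≠ 0) (ρ s τ : ℝ) (hρ : 0 < ρ)
    (hε : ρ * (10000 * (((|G A B e| : ℤ) : ℝ) ^ 3) ^ 2) ^ 2 ≤ 1)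
    (h1 : ρ * (s ^ 2 + τ) = 1) (hτ : 0 < τ) (ha : (a : ℝ) = ρ + 2 * s)
    (hb : (b : ℝ) = 2 * ρ * s + s ^ 2 + τ) (x : V3) (hx : G A B x ≠ 0) :
    |G A B e| ≤ |G A B x| := by
  set L : ℝ := 10000 * (((|G A B e| : ℤ) : ℝ) ^ 3) ^ 2 with hL
  have hL1 : 10000 ≤ L := by
    have h1 : (1 : ℝ) ≤ ((|G A B e| : ℤ) : ℝ) := by exact_mod_cast Int.one_le_abs hD
    have h2 : (1 : ℝ) ≤ (((|G A B e| : ℤ) : ℝ) ^ 3) ^ 2 := one_le_pow₀ (one_le_pow₀ h1)
    linarith
  have hρL : ρ * L ≤ 1 / 10000 := by nlinarith [mul_pos hρ (by linarith : 0 < L)]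
  have hρ1 : ρ ≤ 1 / 10000 := by nlinarith
  have hs : (ρ * s) ^ 2 ≤ (1 / 100) ^ 2 := by
    have : ρ ^ 2 * (s ^ 2 + τ) = ρ := by
      calc ρ ^ 2 * (s ^ 2 + τ) = ρ * (ρ * (s ^ 2 + τ)) := by ring
        _ = ρ := by rw [h1, mul_one]
    nlinarith [sq_nonneg ρ]
  have hs' := abs_le_of_sq_le_sq' hs (by norm_num)
  have hw : ((4 * b - a ^ 2 : ℤ) : ℝ) = 4 * τ + 4 * (ρ * s) - ρ ^ 2 := by
    push_cast; rw [ha, hb]; ring
  have hw0 : -1 < 4 * b - a ^ 2 := by
    have : (-1 : ℝ) < ((4 * b - a ^ 2 : ℤ) : ℝ) := by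
      rw [hw]; nlinarith [hs'.1]
    exact_mod_cast this
  by_cases hz : 4 * b - a ^ 2 = 0
  · have hev : Even a := by
      have : Even (a ^ 2) := ⟨2 * b, by linarith⟩
      exact (Int.even_pow.mp this).1
    obtain ⟨j, hj⟩ := hev
    have haj : a = 2 * j := by linarith
    have hbj : b = j ^ 2 := by rw [haj] at hz; linarith
    subst haj hbj
    have hg := h.par
    have hj' : (j : ℝ) = ρ / 2 + s := by push_cast at ha; linarith
    rw [hz] at hw
    have hτ' : τ = ρ ^ 2 / 4 - ρ * s := by push_cast at hw; linarith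
    have hslt : s < ρ / 4 := by
      by_contra hc
      push Not at hc
      nlinarith
    have hu : 0 < ρ - j := by rw [hj']; linarith
    have hu2 : ρ * (ρ - j) ^ 2 = 1 := by rw [← h1, hj', hτ']; ring
    set η : ℝ := (ρ - j) * ρ with hη
    have hη0 : 0 < η := mul_pos hu hρ
    have hη2 : η ^ 2 = ρ := by
      calc η ^ 2 = ρ * (ρ * (ρ - j) ^ 2) := by rw [hη]; ring
        _ = ρ := by rw [hu2, mul_one]
    have hη3 : η * (η ^ 2 - j) = 1 := by rw [hη2, ← hu2, hη]; ring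
    have hηL : η * L ≤ 1 := by
      have : (η * L) ^ 2 ≤ 1 ^ 2 := by rw [mul_pow, hη2]; linarith
      exact (abs_le_of_sq_le_sq' this (by norm_num)).2
    have hη1 : η ≤ 1 / 10000 := by nlinarith
    have hk : 2 ≤ η ^ 2 - j := by
      by_contra hc
      push Not at hc
      nlinarith
    have := main hg e he (by rw [G_par]; simpa using hD) η (-η / 2) (3 * η ^ 2 / 4 - j) hη0
      (by rw [G_par, abs_neg]; exact hηL) (by rw [← hη3]; ring) (by nlinarith)
      (by push_cast; ring) (by push_cast; ring) x (by rw [G_par]; simpa using hx)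
    rwa [G_par, G_par, abs_neg, abs_neg] at this
  · have hw1 : (1 : ℝ) ≤ ((4 * b - a ^ 2 : ℤ) : ℝ) := by
      have : 1 ≤ 4 * b - a ^ 2 := by omega
      exact_mod_cast this
    refine main h e he hD ρ s τ hρ (by linarith) h1 ?_ ha hb x hx
    rw [hw] at hw1
    nlinarith [hs'.2, sq_nonneg ρ]

/-- outside a bounded set of coefficients the first basis vector is optimal -/
lemma dichotomy {A B : V3 →ₗ[ℤ] V3} {a b : ℤ} (h : Good A B a b) (e : V3) (he : e 0 = 1)
    (hD : G A B e ≠ 0) (ρ s τ : ℝ) (h1 : ρ * (s ^ 2 + τ) = 1) (hτ : 0 < τ)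
    (ha : (a : ℝ) = ρ + 2 * s) (hb : (b : ℝ) = 2 * ρ * s + s ^ 2 + τ)
    (x : V3) (hx : G A B x ≠ 0) (hlt : |G A B x| < |G A B e|) :
    |a| ≤ 3 * (10000 * (|G A B e| ^ 3) ^ 2) ^ 2 ∧ |b| ≤ 3 * (10000 * (|G A B e| ^ 3) ^ 2) ^ 2 := by
  have hn : 0 < s ^ 2 + τ := by positivity
  have hρ : 0 < ρ := by
    by_contra hc
    push Not at hc
    nlinarith
  set L : ℝ := (10000 * (((|G A B e| : ℤ) : ℝ) ^ 3) ^ 2) ^ 2 with hL
  have hL1 : 1 ≤ L := by
    have h1 : (1 : ℝ) ≤ ((|G A B e| : ℤ) : ℝ) := by exact_mod_cast Int.one_le_abs hD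
    have h2 : (1 : ℝ) ≤ (((|G A B e| : ℤ) : ℝ) ^ 3) ^ 2 := one_le_pow₀ (one_le_pow₀ h1)
    exact one_le_pow₀ (by linarith)
  have hA : 1 < ρ * L := by
    by_contra hc
    push Not at hc
    exact absurd (small h e he hD ρ s τ hρ hc h1 hτ ha hb x hx) (not_le.mpr hlt)
  have hB : ρ < L := by
    by_contra hc
    push Not at hc
    have hn' : s ^ 2 + τ = ρ⁻¹ := by field_simp; linarith
    have := small h.symm e he (by rw [G_symm]; simpa using hD) ρ⁻¹ (ρ * s) (ρ ^ 2 * τ)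
      (by positivity) (by rw [G_symm, abs_neg, inv_mul_le_iff₀ hρ]; linarith)
      (by
        calc ρ⁻¹ * ((ρ * s) ^ 2 + ρ ^ 2 * τ) = ρ * (s ^ 2 + τ) := by field_simp
          _ = 1 := h1)
      (by positivity) (by rw [hb, ← hn']; ring)
      (by
        rw [ha]
        have : (ρ * s) ^ 2 + ρ ^ 2 * τ = ρ := by
          calc (ρ * s) ^ 2 + ρ ^ 2 * τ = ρ * (ρ * (s ^ 2 + τ)) := by ring
            _ = ρ := by rw [h1, mul_one]
        rw [add_assoc, this]; field_simp; ring)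
      x (by rw [G_symm]; simpa using hx)
    rw [G_symm A B e, G_symm A B x, abs_neg, abs_neg] at this
    exact absurd this (not_le.mpr hlt)
  have hnL : s ^ 2 + τ < L := by
    by_contra hc
    push Not at hc
    nlinarith
  have hsL : |s| ≤ L := by
    apply abs_le.mpr
    apply abs_le_of_sq_le_sq' _ (by linarith)
    nlinarith
  have hρs : |ρ * s| ≤ L := by
    apply abs_le.mpr
    apply abs_le_of_sq_le_sq' _ (by linarith)
    have : (ρ * s) ^ 2 + ρ ^ 2 * τ = ρ := by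
      calc (ρ * s) ^ 2 + ρ ^ 2 * τ = ρ * (ρ * (s ^ 2 + τ)) := by ring
        _ = ρ := by rw [h1, mul_one]
    nlinarith [mul_pos (pow_pos hρ 2) hτ]
  have a1 := abs_le.mp hsL
  have a2 := abs_le.mp hρs
  constructor
  · have : |(a : ℝ)| ≤ 3 * L := by
      rw [ha, abs_le]; constructor <;> linarith [a1.1, a1.2]
    rw [hL] at this
    exact_mod_cast this
  · have : |(b : ℝ)| ≤ 3 * L := by
      rw [hb, abs_le]; constructor <;> linarith [a2.1, a2.2]
    rw [hL] at this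
    exact_mod_cast this

end Pool.Agent.H4489
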